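import Pool.Agent.KS6_27.PIa

/-!
# The Pisier-type implication for Sidon sets fails for every `δ ≤ 5/9` and holds for every `δ > 3/4`

`B = {w a b + w b c - w a c : a < b < c}` with `w i j = 8 ^ pair i j`.  All non-trivial solutions of
`x + y = z + t` in `B` come from the four faces of a tetrahedron `a < b < c < d`; hence a subset of
`B` whose triples form a `3`-graph without `K_4^(3)` is a Sidon set, and Turán's `3`-partition
catches at least `5/9` of every finite subset.
-/

set_option autoImplicit false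

namespace Pool.Agent.Results.MP_33952e_nt.FiveNinths

open Pool.Agent.R446.Pisier Pool.Agent.KS6_27.PI

/-- `S` is a Sidon set (a `B_2` sequence): the sums `a + a'` with `a ≤ a'` are distinct -/
def SidonOn (S : Set ℕ) : Prop :=
  ∀ a ∈ S, ∀ b ∈ S, ∀ c ∈ S, ∀ d ∈ S, a + b = c + d → (a = c ∧ b = d) ∨ (a = d ∧ b = c)

/-- property `P(δ)`: every finite subset `A` of `B` contains a Sidon set with at least `δ |A|`
elements -/
def PropertyP (δ : ℝ) (B : Set ℕ) : Prop :=
  ∀ A : Finset ℕ, (↑A : Set ℕ) ⊆ B →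
    ∃ S : Finset ℕ, S ⊆ A ∧ δ * (A.card : ℝ) ≤ (S.card : ℝ) ∧ SidonOn (↑S : Set ℕ)

/-- `B` is a union of `C` Sidon sets -/
def UnionOfSidon (C : ℕ) (B : Set ℕ) : Prop :=
  ∃ f : Fin C → Set ℕ, (∀ i, SidonOn (f i)) ∧ B = ⋃ i, f i

/-- (1) One infinite set of natural numbers has property `P(δ)` for every `δ ≤ 5/9` and is not a
finite union of Sidon sets.  (2) For `δ > 3/4` property `P(δ)` forces `B` to be a Sidon set. -/
theorem result :
    (∃ B : Set ℕ, B.Infinite ∧ (∀ δ : ℝ, δ ≤ 5 / 9 → PropertyP δ B) ∧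
      ∀ C : ℕ, ¬ UnionOfSidon C B) ∧
    (∀ δ : ℝ, 3 / 4 < δ → ∀ B : Set ℕ, PropertyP δ B → SidonOn B) := by
  classical
  constructor
  · set B : Set ℕ := {x | ∃ a b c : ℕ, a < b ∧ b < c ∧ x = v a b c} with hB
    have hinf : B.Infinite := by
      apply Set.infinite_of_injective_forall_mem (f := fun n : ℕ => v 0 1 (n + 2))
      · intro m n hmn
        have := v_inj ⟨by omega, by omega⟩ ⟨by omega, by omega⟩ hmn
        omega
      · intro n
        exact ⟨0, 1, n + 2, by omega, by omega, rfl⟩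
    refine ⟨B, hinf, ?_, ?_⟩
    · intro δ hδ A hA
      have hA' : ∀ x : ℕ, ∃ t : ℕ × ℕ × ℕ, x ∈ A → t.1 < t.2.1 ∧ t.2.1 < t.2.2 ∧
          x = v t.1 t.2.1 t.2.2 := by
        intro x
        by_cases hx : x ∈ A
        · obtain ⟨a, b, c, h1, h2, h3⟩ := hA hx
          exact ⟨(a, b, c), fun _ => ⟨h1, h2, h3⟩⟩
        · exact ⟨(0, 0, 0), fun h => absurd h hx⟩
      choose t ht using hA'
      obtain ⟨M, hM⟩ : ∃ M : ℕ, ∀ x ∈ A, (t x).2.2 ≤ M :=
        ⟨A.sup (fun x => (t x).2.2), fun x hx => Finset.le_sup (f := fun x => (t x).2.2) hx⟩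
      have hlt : ∀ x ∈ A, (t x).1 < M + 1 ∧ (t x).2.1 < M + 1 ∧ (t x).2.2 < M + 1 := by
        intro x hx
        have h1 := ht x hx
        have h2 := hM x hx
        omega
      obtain ⟨σ, hσ⟩ := KS6_27.PI.exists_typing (M + 1) A (fun x => Fin.ofNat (M + 1) (t x).1)
        (fun x => Fin.ofNat (M + 1) (t x).2.1) (fun x => Fin.ofNat (M + 1) (t x).2.2)
        (by
          intro x hx h
          have h1 := ht x hx
          have h2 := hlt x hx
          have := congrArg Fin.val h
          simp only [Fin.val_ofNat, Nat.mod_eq_of_lt h2.1, Nat.mod_eq_of_lt h2.2.1] at this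
          omega)
        (by
          intro x hx h
          have h1 := ht x hx
          have h2 := hlt x hx
          have := congrArg Fin.val h
          simp only [Fin.val_ofNat, Nat.mod_eq_of_lt h2.1, Nat.mod_eq_of_lt h2.2.2] at this
          omega)
        (by
          intro x hx h
          have h1 := ht x hx
          have h2 := hlt x hx
          have := congrArg Fin.val h
          simp only [Fin.val_ofNat, Nat.mod_eq_of_lt h2.2.1, Nat.mod_eq_of_lt h2.2.2] at this
          omega)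
      set τ : ℕ → ZMod 3 := fun n => σ (Fin.ofNat (M + 1) n) with hτ
      refine ⟨A.filter (fun x => kp (τ (t x).1) (τ (t x).2.1) (τ (t x).2.2)),
        Finset.filter_subset _ _, ?_, ?_⟩
      · have h59 : (5 : ℝ) * (A.card : ℝ) ≤ 9 *
            ((A.filter (fun x => kp (τ (t x).1) (τ (t x).2.1) (τ (t x).2.2))).card : ℝ) := by
          exact_mod_cast hσ
        have h0 : (0 : ℝ) ≤ (A.card : ℝ) := Nat.cast_nonneg _
        nlinarith
      · intro x hx y hy z hz u hu h
        rw [Finset.mem_coe, Finset.mem_filter] at hx hy hz hu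
        obtain ⟨x1, x2, x3⟩ := ht x hx.1
        obtain ⟨y1, y2, y3⟩ := ht y hy.1
        obtain ⟨z1, z2, z3⟩ := ht z hz.1
        obtain ⟨u1, u2, u3⟩ := ht u hu.1
        have h' := h
        rw [x3, y3, z3, u3] at h'
        have := sidon_kp τ ⟨x1, x2⟩ ⟨y1, y2⟩ ⟨z1, z2⟩ ⟨u1, u2⟩ hx.2 hy.2 hz.2 hu.2 h'
        rw [← x3, ← y3, ← z3, ← u3] at this
        exact this
    · rintro C ⟨g, hg, hU⟩
      have hmem : ∀ x ∈ B, ∃ i : Fin C, x ∈ g i := by
        intro x hx
        rw [hU] at hx
        exact Set.mem_iUnion.1 hx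
      have hC : 0 < C := by
        obtain ⟨i, _⟩ := hmem (v 0 1 2) ⟨0, 1, 2, by omega, by omega, rfl⟩
        exact i.pos
      let f : ℕ → Fin C := fun x => if h : ∃ i : Fin C, x ∈ g i then h.choose else ⟨0, hC⟩
      have hf' : ∀ x ∈ B, x ∈ g (f x) := by
        intro x hx
        have h := hmem x hx
        simp only [f, dif_pos h]
        exact h.choose_spec
      obtain ⟨a, b, c, d, hab, hbc, hcd, e1, e2, e3⟩ := ramsey4 (fun i j k => f (v i j k))
      have k1 := v_add (a := a) (b := b) (c := d) hab (hbc.trans hcd)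
      have k2 := v_add (a := b) (b := c) (c := d) hbc hcd
      have k3 := v_add (a := a) (b := c) (c := d) (hab.trans hbc) hcd
      have k4 := v_add (a := a) (b := b) (c := c) hab hbc
      have hsum : v a b d + v b c d = v a c d + v a b c := by omega
      have m1 := hf' (v a b d) ⟨a, b, d, hab, hbc.trans hcd, rfl⟩
      have m2 := hf' (v b c d) ⟨b, c, d, hbc, hcd, rfl⟩
      have m3 := hf' (v a c d) ⟨a, c, d, hab.trans hbc, hcd, rfl⟩
      have m4 := hf' (v a b c) ⟨a, b, c, hab, hbc, rfl⟩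
      rw [← e1] at m1
      rw [← e3] at m2
      rw [← e2] at m3
      rcases hg _ _ m1 _ m2 _ m3 _ m4 hsum with ⟨h1, _⟩ | ⟨h1, _⟩
      · have := v_inj ⟨hab, hbc.trans hcd⟩ ⟨hab.trans hbc, hcd⟩ h1
        omega
      · have := v_inj ⟨hab, hbc.trans hcd⟩ ⟨hab, hbc⟩ h1
        omega
  · intro δ hδ B hP a ha b hb c hc d hd h
    have hsub : ((({a, b, c, d} : Finset ℕ) : Finset ℕ) : Set ℕ) ⊆ B := by
      intro x hx
      simp only [Finset.coe_insert, Finset.coe_singleton, Set.mem_insert_iff,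
        Set.mem_singleton_iff] at hx
      rcases hx with rfl | rfl | rfl | rfl <;> assumption
    obtain ⟨S, hS, hcard, hSid⟩ := hP {a, b, c, d} hsub
    have h4 : ({a, b, c, d} : Finset ℕ).card ≤ 4 := Finset.card_le_four
    have h1 : 1 ≤ ({a, b, c, d} : Finset ℕ).card := Finset.card_pos.2 ⟨a, by simp⟩
    have hle : ({a, b, c, d} : Finset ℕ).card ≤ S.card := by
      by_contra hlt
      have hlt' : (S.card : ℝ) + 1 ≤ (({a, b, c, d} : Finset ℕ).card : ℝ) := by
        exact_mod_cast Nat.succ_le_of_lt (not_le.1 hlt)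
      have h4' : ((({a, b, c, d} : Finset ℕ).card : ℕ) : ℝ) ≤ 4 := by exact_mod_cast h4
      have h1' : (1 : ℝ) ≤ ((({a, b, c, d} : Finset ℕ).card : ℕ) : ℝ) := by exact_mod_cast h1
      nlinarith
    have hEq : S = {a, b, c, d} := Finset.eq_of_subset_of_card_le hS hle
    subst hEq
    exact hSid a (by simp) b (by simp) c (by simp) d (by simp) h

end Pool.Agent.Results.MP_33952e_nt.FiveNinths
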